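import Pool.Agent.N337.DW.Uniq

/-!
# The flip complex of double wiring diagrams is simply connected

For every number `n = m + 1` of strands the flip graph `G_n` of double wiring diagrams is
connected, every closed walk of `G_n` is null-homotopic in the complex `X_n` obtained by attaching
a 2-cell along every cycle of length 4, every cycle of length 5 and every cycle of length 8 of
single-wiring type, and `G_n` has exactly one edge for each flip (a pair of classes determines the
flip joining them), so that nothing is lost by treating `G_n` as a simple graph.
-/

namespace Pool.Agent.Results.MP_8f97c4_co.FlipComplex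

open N337.DW

theorem result (m : ℕ) :
    (flipGraph m).Connected ∧
    (∀ (A : Vert m) (p : (flipGraph m).Walk A A), Htpy IsCell p SimpleGraph.Walk.nil) ∧
    (∀ (a b a' b' : Letter m) (k k' : ℕ) (u v u' v' : Dbl m),
      FlipAt a b k u.1 v.1 → FlipAt a' b' k' u'.1 v'.1 →
      Vert.mk u = Vert.mk u' → Vert.mk v = Vert.mk v' → a = a' ∧ b = b' ∧ k = k') :=
  ⟨connected m, null_homotopic m, fun _ _ _ _ _ _ _ _ _ _ h h' hu hv =>
    flipAt_unique h h' hu hv⟩

end Pool.Agent.Results.MP_8f97c4_co.FlipComplex
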